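import Mathlib

set_option autoImplicit false

/-!
# Partial DP-colouring from 2-fold covers: a graph with DP-chromatic number five

A 4-degenerate graph `G` on 13 vertices that contains a `K₅` (so its DP-chromatic number is five) and a
2-fold cover of `G` whose independence number is at most five; `5 < 2 * 13 / 5`.
-/

namespace Pool.Agent.Results.MP_f6aace_co.ThirteenVertices

open SimpleGraph

/-- `(L, H)` is a cover of the graph `G`. -/
structure IsCover {V W : Type} (G : SimpleGraph V) (L : V → Set W) (H : SimpleGraph W) : Prop where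
  /-- the sets `L u` partition the vertex set of `H` -/
  part : ∀ x : W, ∃! u : V, x ∈ L u
  /-- each set `L u` induces a complete subgraph of `H` -/
  clique : ∀ u : V, H.IsClique (L u)
  /-- for adjacent `u` and `v` the edges of `H` between `L u` and `L v` form a matching -/
  matching : ∀ u v : V, G.Adj u v → ∀ x ∈ L u, ∀ y ∈ L v, ∀ z ∈ L v,
    H.Adj x y → H.Adj x z → y = z
  /-- for distinct nonadjacent `u` and `v` no edge of `H` joins `L u` and `L v` -/
  nonadj : ∀ u v : V, u ≠ v → ¬ G.Adj u v → ∀ x ∈ L u, ∀ y ∈ L v, ¬ H.Adj x y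

/-- the DP-chromatic number: the least `m` such that for every `m`-fold cover `(L, H)` of `G` (with `H`
finite) the graph `H` has an independent set with `|V(G)|` elements -/
noncomputable def chiDP {V : Type} [Fintype V] (G : SimpleGraph V) : ℕ :=
  sInf {m : ℕ | ∀ (W : Type) [Finite W] (L : V → Set W) (H : SimpleGraph W), IsCover G L H →
    (∀ u, (L u).ncard = m) → ∃ s : Finset W, H.IsNIndepSet (Fintype.card V) s}

/-- the least independence number of `H` over all `t`-fold covers `(L, H)` of `G` (with `H` finite) -/
noncomputable def alphaDP {V : Type} (G : SimpleGraph V) (t : ℕ) : ℕ :=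
  sInf {a : ℕ | ∃ (W : Type) (_ : Finite W) (L : V → Set W) (H : SimpleGraph W), IsCover G L H ∧
    (∀ u, (L u).ncard = t) ∧ a = H.indepNum}

/-! ### A search for independent sets in graphs given by neighbour masks -/

/-- `true` if the recursion finds no independent set with `need` vertices among the vertices below `i`
that are not in the mask `forb` -/
def search (nb : ℕ → ℕ) : ℕ → ℕ → ℕ → Bool
  | 0, _, need => need != 0
  | i + 1, forb, need => need != 0 &&
      (Nat.blt (i + 1) need ||
        (search nb i forb need && (forb.testBit i || search nb i (forb ||| nb i) (need - 1))))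

lemma search_sound (nb : ℕ → ℕ) : ∀ (i forb need : ℕ), search nb i forb need = true →
    ∀ s : Finset ℕ, (∀ x ∈ s, x < i) → (∀ x ∈ s, forb.testBit x = false) →
      (∀ x ∈ s, ∀ y ∈ s, x < y → (nb y).testBit x = false) → s.card < need := by
  intro i
  induction i with
  | zero =>
    intro forb need h s hs _ _
    have : s = ∅ := Finset.eq_empty_of_forall_notMem fun x hx => by simpa using hs x hx
    subst this
    simp only [search, bne_iff_ne, ne_eq] at h
    simp only [Finset.card_empty]
    omega
  | succ i ih =>
    intro forb need h s hs hf hi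
    simp only [search, Bool.and_eq_true, Bool.or_eq_true, bne_iff_ne, ne_eq] at h
    obtain ⟨h0, h | ⟨h1, h2⟩⟩ := h
    · have h' : i + 1 < need := Nat.blt_eq.mp h
      have hsub : s ⊆ Finset.range (i + 1) := fun x hx => Finset.mem_range.2 (hs x hx)
      have := Finset.card_le_card hsub
      rw [Finset.card_range] at this
      omega
    · by_cases hmem : i ∈ s
      · rcases h2 with h2 | h2
        · rw [hf i hmem] at h2
          exact absurd h2 (by simp)
        · have key := ih (forb ||| nb i) (need - 1) h2 (s.erase i) ?_ ?_ ?_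
          · rw [Finset.card_erase_of_mem hmem] at key
            omega
          · intro x hx
            obtain ⟨hx1, hx2⟩ := Finset.mem_erase.1 hx
            have := hs x hx2
            omega
          · intro x hx
            obtain ⟨hx1, hx2⟩ := Finset.mem_erase.1 hx
            have hlt : x < i := by
              have := hs x hx2
              omega
            rw [Nat.testBit_or, hf x hx2, hi x hx2 i hmem hlt]
            rfl
          · intro x hx y hy hxy
            exact hi x (Finset.mem_of_mem_erase hx) y (Finset.mem_of_mem_erase hy) hxy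
      · refine ih forb need h1 s ?_ hf hi
        intro x hx
        have := hs x hx
        have : x ≠ i := fun h => hmem (h ▸ hx)
        omega

/-! ### The graph -/

/-- the edges of the graph, with their signs in the 2-fold cover -/
def edges : List (ℕ × ℕ × Bool) :=
  [(0, 1, true), (0, 2, true), (0, 3, true), (0, 4, true), (0, 5, true), (0, 8, true),
   (1, 6, true), (1, 7, true), (5, 6, true), (5, 7, true), (5, 9, true), (6, 10, true),
   (6, 11, true), (7, 10, true), (8, 10, true), (8, 11, true), (8, 12, true), (9, 10, true),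
   (9, 11, true), (1, 2, false), (1, 3, false), (1, 4, false), (1, 5, false), (2, 3, false),
   (2, 4, false), (2, 5, false), (2, 8, false), (3, 4, false), (3, 5, false), (3, 8, false),
   (4, 6, false), (4, 7, false), (4, 9, false), (6, 7, false), (6, 8, false), (6, 9, false),
   (7, 9, false), (7, 12, false), (10, 11, false), (10, 12, false), (11, 12, false)]

/-- adjacency below the diagonal with sign `b` -/
def sgn (u v : Fin 13) (b : Bool) : Bool :=
  edges.contains (u.val, v.val, b) || edges.contains (v.val, u.val, b)

lemma sgn_symm (u v : Fin 13) (b : Bool) : sgn u v b = sgn v u b := by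
  unfold sgn; rw [Bool.or_comm]

/-- the graph on 13 vertices -/
def G : SimpleGraph (Fin 13) where
  Adj u v := (sgn u v true || sgn u v false) = true
  symm := ⟨fun u v h => by rw [sgn_symm v u, sgn_symm v u]; exact h⟩
  loopless := ⟨fun u h => by revert u; decide +kernel⟩

instance : DecidableRel G.Adj := fun u v => by unfold G; infer_instance

lemma loop_sgn : ∀ (u : Fin 13) (b : Bool), sgn u u b = false := by decide +kernel

lemma sgn_excl : ∀ u v : Fin 13, ¬ (sgn u v true = true ∧ sgn u v false = true) := by decide +kernel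

/-- the graph of the 2-fold cover: vertices `(u, a)` and `(v, b)` over an edge `u v` of `G` are
adjacent if `a ≠ b` (sign `true`) or `a = b` (sign `false`) -/
def H : SimpleGraph (Fin 13 × Bool) where
  Adj x y := (x.1 = y.1 ∧ x.2 ≠ y.2) ∨ sgn x.1 y.1 (xor x.2 y.2) = true
  symm := ⟨fun x y h => by
    rcases h with ⟨h1, h2⟩ | h
    · exact Or.inl ⟨h1.symm, h2.symm⟩
    · right; rw [sgn_symm, Bool.xor_comm]; exact h⟩
  loopless := ⟨fun x h => by
    rcases h with ⟨_, h⟩ | h
    · exact h rfl
    · rw [loop_sgn] at h; exact absurd h (by simp)⟩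

instance : DecidableRel H.Adj := fun x y => by unfold H; infer_instance

/-- neighbour masks of `H`, the vertex `(u, b)` has number `2 u + b` -/
def nbL : List ℕ :=
  [133802, 66901, 42330, 23205, 66918, 133785, 66966, 133737, 283222, 565673, 567382, 283817,
   10840328, 5936644, 19175688, 35153412, 44175442, 22093985, 11032832, 5547520, 23764992,
   43339776, 26877952, 40177664, 38944768, 27361280]

/-- neighbour masks as a function -/
def nb (i : ℕ) : ℕ := nbL.getD i 0

/-- the number of a vertex of `H` -/
def num (x : Fin 13 × Bool) : ℕ := 2 * x.1.val + (if x.2 then 1 else 0)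

lemma num_inj : Function.Injective num := by
  rintro ⟨u, a⟩ ⟨v, b⟩ h
  unfold num at h
  have h1 : u = v := by
    ext
    dsimp only at h
    split_ifs at h <;> omega
  subst h1
  cases a <;> cases b <;> simp_all

lemma num_lt (x : Fin 13 × Bool) : num x < 26 := by
  obtain ⟨u, a⟩ := x
  unfold num
  have := u.isLt
  dsimp only
  split_ifs <;> omega

lemma nb_spec : ∀ (u v : Fin 13) (a b : Bool), (nb (num (u, a))).testBit (num (v, b)) = true →
    H.Adj (u, a) (v, b) := by decide +kernel

lemma nb_none : search nb 26 0 6 = true := by decide +kernel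

lemma H_indep (s : Finset (Fin 13 × Bool)) (hs : H.IsIndepSet (s : Set (Fin 13 × Bool))) :
    s.card ≤ 5 := by
  have h := search_sound nb 26 0 6 nb_none (s.map ⟨num, num_inj⟩) ?_ ?_ ?_
  · rw [Finset.card_map] at h
    omega
  · intro x hx
    obtain ⟨y, _, rfl⟩ := Finset.mem_map.1 hx
    exact num_lt y
  · intro x _
    exact Nat.zero_testBit x
  · intro x hx y hy hxy
    obtain ⟨x', hx', rfl⟩ := Finset.mem_map.1 hx
    obtain ⟨y', hy', rfl⟩ := Finset.mem_map.1 hy
    have hne : y' ≠ x' := by
      rintro rfl
      exact lt_irrefl _ hxy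
    by_contra hb
    have hb' : (nb (num y')).testBit (num x') = true := by
      simpa using hb
    exact hs hy' hx' hne (nb_spec y'.1 x'.1 y'.2 x'.2 hb')

/-! ### The 2-fold cover -/

/-- the sets of the 2-fold cover -/
def L (u : Fin 13) : Set (Fin 13 × Bool) := {x | x.1 = u}

lemma L_cover : IsCover G L H where
  part x := ⟨x.1, rfl, fun _ h => Eq.symm h⟩
  clique u := by
    rintro ⟨x, a⟩ hx ⟨y, b⟩ hy hne
    have hx' : x = u := hx
    have hy' : y = u := hy
    subst hx' hy'
    left
    refine ⟨rfl, fun h => hne ?_⟩
    have h' : a = b := h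
    rw [h']
  matching u v huv := by
    rintro ⟨x, a⟩ hx ⟨y, b⟩ hy ⟨z, c⟩ hz h1 h2
    have hx' : x = u := hx
    have hy' : y = v := hy
    have hz' : z = v := hz
    subst hx'
    subst hy'
    subst hz'
    have hne : x ≠ z := huv.ne
    have h1' : sgn x z (xor a b) = true := by
      rcases h1 with ⟨h, _⟩ | h
      · exact absurd h hne
      · exact h
    have h2' : sgn x z (xor a c) = true := by
      rcases h2 with ⟨h, _⟩ | h
      · exact absurd h hne
      · exact h
    have hex := sgn_excl x z
    have : b = c := by
      cases a <;> cases b <;> cases c <;> simp_all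
    rw [this]
  nonadj u v huv hn := by
    rintro ⟨x, a⟩ hx ⟨y, b⟩ hy h
    have hx' : x = u := hx
    have hy' : y = v := hy
    subst hx'
    subst hy'
    rcases h with ⟨h, _⟩ | h
    · exact huv h
    · apply hn
      have h' : sgn x y (xor a b) = true := h
      show (sgn x y true || sgn x y false) = true
      cases hab : xor a b <;> rw [hab] at h' <;> simp [h']

lemma L_card (u : Fin 13) : (L u).ncard = 2 := by
  have : L u = {(u, true), (u, false)} := by
    ext ⟨x, a⟩
    simp only [L, Set.mem_ofPred_eq, Set.mem_insert_iff, Set.mem_singleton_iff, Prod.mk.injEq]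
    cases a <;> simp
  rw [this]
  exact Set.ncard_pair (by simp)

theorem alpha_le : alphaDP G 2 ≤ 5 := by
  have hle : H.indepNum ≤ 5 := by
    obtain ⟨s, hs⟩ := H.exists_isNIndepSet_indepNum
    rw [← hs.card_eq]
    exact H_indep s hs.isIndepSet
  refine le_trans (Nat.sInf_le ?_) hle
  exact ⟨Fin 13 × Bool, inferInstance, L, H, L_cover, L_card, rfl⟩

/-! ### The DP-chromatic number -/

lemma degenerate : ∀ i : Fin 13, (Finset.univ.filter fun j => j < i ∧ G.Adj j i).card ≤ 4 := by
  decide +kernel

lemma five_colourable (W : Type) [Finite W] (L' : Fin 13 → Set W) (H' : SimpleGraph W)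
    (hc : IsCover G L' H') (hm : ∀ u, (L' u).ncard = 5) :
    ∃ s : Finset W, H'.IsNIndepSet (Fintype.card (Fin 13)) s := by
  classical
  have main : ∀ k : ℕ, k ≤ 13 → ∃ c : Fin 13 → W, ∀ i : Fin 13, i.val < k → c i ∈ L' i ∧
      ∀ j : Fin 13, j < i → ¬ H'.Adj (c j) (c i) := by
    intro k
    induction k with
    | zero =>
      intro _
      have : (L' 0).Nonempty := by
        rw [← Set.ncard_pos (Set.toFinite _), hm]
        norm_num
      obtain ⟨w, _⟩ := this
      exact ⟨fun _ => w, fun i hi => absurd hi (by omega)⟩
    | succ k ih =>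
      intro hk
      obtain ⟨c, hcc⟩ := ih (by omega)
      set i : Fin 13 := ⟨k, by omega⟩ with hi
      -- the elements of `L' i` excluded by the earlier neighbours
      let bad : Set W := ⋃ j ∈ (Finset.univ.filter fun j => j < i ∧ G.Adj j i),
        {w | w ∈ L' i ∧ H'.Adj (c j) w}
      have hbad : bad.ncard ≤ 4 := by
        refine le_trans ?_ (degenerate i)
        have h1 : ∀ j ∈ (Finset.univ.filter fun j => j < i ∧ G.Adj j i),
            ({w | w ∈ L' i ∧ H'.Adj (c j) w} : Set W).ncard ≤ 1 := by
          intro j hj
          obtain ⟨_, hj1, hj2⟩ := Finset.mem_filter.1 hj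
          rw [Set.ncard_le_one (Set.toFinite _)]
          intro a ha b hb
          have hjk : j.val < k := hj1
          exact hc.matching j i hj2 (c j) (hcc j hjk).1 a ha.1 b hb.1 ha.2 hb.2
        calc bad.ncard ≤ ∑ j ∈ (Finset.univ.filter fun j => j < i ∧ G.Adj j i),
              ({w | w ∈ L' i ∧ H'.Adj (c j) w} : Set W).ncard :=
              Finset.set_ncard_biUnion_le _ _
          _ ≤ ∑ j ∈ (Finset.univ.filter fun j => j < i ∧ G.Adj j i), 1 := Finset.sum_le_sum h1
          _ = _ := by simp
      have hex : ∃ w ∈ L' i, w ∉ bad := by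
        by_contra hno
        push Not at hno
        have := Set.ncard_le_ncard (fun w hw => hno w hw) (Set.toFinite bad)
        rw [hm i] at this
        omega
      obtain ⟨w, hw1, hw2⟩ := hex
      refine ⟨Function.update c i w, fun x hx => ?_⟩
      rcases Nat.lt_succ_iff_lt_or_eq.1 hx with hlt | heq
      · have hxi : x ≠ i := by
          intro h
          rw [h, hi] at hlt
          simp at hlt
        refine ⟨by rw [Function.update_of_ne hxi]; exact (hcc x hlt).1, fun j hj => ?_⟩
        have hji : j ≠ i := by
          intro h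
          have : j.val < x.val := hj
          rw [h, hi] at this
          simp only at this
          omega
        rw [Function.update_of_ne hxi, Function.update_of_ne hji]
        exact (hcc x hlt).2 j hj
      · have hxi : x = i := Fin.ext heq
        rw [hxi]
        refine ⟨by rw [Function.update_self]; exact hw1, fun j hj => ?_⟩
        have hji : j ≠ i := ne_of_lt hj
        rw [Function.update_self, Function.update_of_ne hji]
        intro hadj
        by_cases hG : G.Adj j i
        · apply hw2
          refine Set.mem_iUnion₂.2 ⟨j, Finset.mem_filter.2 ⟨Finset.mem_univ _, hj, hG⟩, hw1, hadj⟩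
        · have hjk : j.val < k := hj
          exact hc.nonadj j i hji hG (c j) (hcc j hjk).1 w hw1 hadj
  obtain ⟨c, hcc⟩ := main 13 le_rfl
  have hL : ∀ i, c i ∈ L' i := fun i => (hcc i i.isLt).1
  have hinj : Function.Injective c := by
    intro i j hij
    obtain ⟨u, _, hu⟩ := hc.part (c i)
    have h1 := hu i (hL i)
    have h2 := hu j (by rw [hij]; exact hL j)
    rw [h1, h2]
  refine ⟨Finset.univ.map ⟨c, hinj⟩, ⟨?_, by rw [Finset.card_map]; rfl⟩⟩
  intro x hx y hy hne hadj
  simp only [Finset.coe_map, Function.Embedding.coeFn_mk, Finset.coe_univ, Set.image_univ,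
    Set.mem_range] at hx hy
  obtain ⟨i, rfl⟩ := hx
  obtain ⟨j, rfl⟩ := hy
  have hij : i ≠ j := fun h => hne (by rw [h])
  rcases lt_or_gt_of_ne hij with h | h
  · exact (hcc j j.isLt).2 i h hadj
  · exact (hcc i i.isLt).2 j h hadj.symm

/-- the cover that encodes ordinary colouring with `m` colours -/
lemma ordinary (m : ℕ)
    (h : ∀ (W : Type) [Finite W] (L : Fin 13 → Set W) (H : SimpleGraph W), IsCover G L H →
      (∀ u, (L u).ncard = m) → ∃ s : Finset W, H.IsNIndepSet (Fintype.card (Fin 13)) s) :
    G.Colorable m := by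
  classical
  let Hm : SimpleGraph (Fin 13 × Fin m) :=
    { Adj := fun x y => (x.1 = y.1 ∧ x.2 ≠ y.2) ∨ (G.Adj x.1 y.1 ∧ x.2 = y.2)
      symm := ⟨fun x y h => by
        rcases h with ⟨h1, h2⟩ | ⟨h1, h2⟩
        · exact Or.inl ⟨h1.symm, h2.symm⟩
        · exact Or.inr ⟨h1.symm, h2.symm⟩⟩
      loopless := ⟨fun x h => by
        rcases h with ⟨_, h⟩ | ⟨h, _⟩
        · exact h rfl
        · exact G.loopless.irrefl _ h⟩ }
  obtain ⟨s, hs⟩ := h (Fin 13 × Fin m) (fun u => {x | x.1 = u}) Hm
    { part := fun x => ⟨x.1, rfl, fun _ h => Eq.symm h⟩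
      clique := by
        rintro u ⟨x, a⟩ hx ⟨y, b⟩ hy hne
        have hx' : x = u := hx
        have hy' : y = u := hy
        subst hx' hy'
        exact Or.inl ⟨rfl, fun h => hne (by rw [show a = b from h])⟩
      matching := by
        rintro u v huv ⟨x, a⟩ hx ⟨y, b⟩ hy ⟨z, c⟩ hz h1 h2
        have hx' : x = u := hx
        have hy' : y = v := hy
        have hz' : z = v := hz
        subst hx'
        subst hy'
        subst hz'
        have hne := huv.ne
        rcases h1 with ⟨h, _⟩ | ⟨_, h1⟩
        · exact absurd h hne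
        · rcases h2 with ⟨h, _⟩ | ⟨_, h2⟩
          · exact absurd h hne
          · have e1 : a = b := h1
            have e2 : a = c := h2
            rw [← e1, ← e2]
      nonadj := by
        rintro u v huv hn ⟨x, a⟩ hx ⟨y, b⟩ hy h
        have hx' : x = u := hx
        have hy' : y = v := hy
        subst hx'
        subst hy'
        rcases h with ⟨h, _⟩ | ⟨h, _⟩
        · exact huv h
        · exact hn h }
    (fun u => by
      have : {x : Fin 13 × Fin m | x.1 = u} = Set.range (fun i : Fin m => (u, i)) := by
        ext ⟨x, a⟩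
        simp only [Set.mem_ofPred_eq, Set.mem_range, Prod.mk.injEq, exists_eq_right]
        exact eq_comm
      rw [this, ← Set.image_univ, Set.ncard_image_of_injective _
        (fun i j hij => (Prod.mk.inj hij).2)]
      simp)
  -- the projection of the independent set to the vertices of `G` is a bijection
  have hinj : Set.InjOn Prod.fst (s : Set (Fin 13 × Fin m)) := by
    rintro ⟨x, a⟩ hx ⟨y, b⟩ hy hxy
    by_contra hne
    refine hs.isIndepSet hx hy hne (Or.inl ⟨hxy, fun h => hne ?_⟩)
    have h1 : x = y := hxy
    have h2 : a = b := h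
    rw [h1, h2]
  have himg : s.image Prod.fst = Finset.univ := by
    apply Finset.eq_univ_of_card
    rw [Finset.card_image_of_injOn hinj, hs.card_eq]
  have hex : ∀ u : Fin 13, ∃ i : Fin m, (u, i) ∈ s := by
    intro u
    have : u ∈ s.image Prod.fst := by rw [himg]; exact Finset.mem_univ u
    obtain ⟨⟨x, a⟩, hx, rfl⟩ := Finset.mem_image.1 this
    exact ⟨a, hx⟩
  choose f hf using hex
  refine ⟨Coloring.mk f ?_⟩
  intro u v huv heq
  have hne : (u, f u) ≠ (v, f v) := fun h => huv.ne (Prod.mk.inj h).1
  exact hs.isIndepSet (hf u) (hf v) hne (Or.inr ⟨huv, heq⟩)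

lemma not_cliqueFree : ¬ G.CliqueFree 5 := by
  intro h
  refine h {0, 1, 2, 3, 4} ?_
  rw [SimpleGraph.isNClique_iff]
  refine ⟨?_, by decide⟩
  intro a ha b hb hne
  simp only [Finset.coe_insert, Finset.coe_singleton, Set.mem_insert_iff,
    Set.mem_singleton_iff] at ha hb
  rcases ha with rfl | rfl | rfl | rfl | rfl <;> rcases hb with rfl | rfl | rfl | rfl | rfl <;>
    first
    | exact absurd rfl hne
    | decide

theorem chi_eq : chiDP G = 5 := by
  apply le_antisymm
  · exact Nat.sInf_le (fun W _ L' H' hc hm => five_colourable W L' H' hc hm)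
  · refine le_csInf ⟨5, fun W _ L' H' hc hm => five_colourable W L' H' hc hm⟩ ?_
    intro m hm
    by_contra hlt
    exact not_cliqueFree ((ordinary m hm).cliqueFree (by omega))

/-- There is a graph `G` with `χ_DP(G) > 3` and `α₂^DP(G) < 2 |V(G)| / χ_DP(G)`; the example has 13
vertices and `χ_DP(G) = 5`. -/
theorem result : ∃ (V : Type) (_ : Fintype V) (G : SimpleGraph V),
    Fintype.card V = 13 ∧ chiDP G = 5 ∧ 3 < chiDP G ∧
      (alphaDP G 2 : ℝ) < 2 * (Fintype.card V : ℝ) / (chiDP G : ℝ) := by
  refine ⟨Fin 13, inferInstance, G, by simp, chi_eq, by rw [chi_eq]; norm_num, ?_⟩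
  rw [chi_eq]
  have h : (alphaDP G 2 : ℝ) ≤ 5 := by exact_mod_cast alpha_le
  have : (Fintype.card (Fin 13) : ℝ) = 13 := by simp
  rw [this]
  have h2 : (2 : ℝ) * 13 / ((5 : ℕ) : ℝ) = 5.2 := by norm_num
  rw [h2]
  linarith

end Pool.Agent.Results.MP_f6aace_co.ThirteenVertices
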